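import Pool.Agent.Work.MP_91c91a_lc.Asym
import Pool.Agent.Work.MP_91c91a_lc.Un.Lin

set_option autoImplicit false

namespace Pool.Agent.Results.MP_91c91a_lc.ThetaBound

open Pool.Agent.Work.MP_91c91a_lc Filter Asymptotics

/-- The maximum `g k m` exists; for `k = 1` it has order of growth `m`; for every fixed `k ≥ 2` it
has order of growth `m ^ 2 / log m`; and for every fixed `k` it is `o (m ^ 2)`. -/
theorem result :
    (∀ k m : ℕ, IsGreatest (vals k m) (g k m)) ∧
    (fun m : ℕ => (g 1 m : ℝ)) =Θ[atTop] (fun m : ℕ => (m : ℝ)) ∧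
    (∀ k : ℕ, 2 ≤ k →
      (fun m : ℕ => (g k m : ℝ)) =Θ[atTop] fun m : ℕ => (m : ℝ) ^ 2 / Real.log m) ∧
    (∀ k : ℕ, (fun m : ℕ => (g k m : ℝ)) =o[atTop] fun m : ℕ => (m : ℝ) ^ 2) ∧
    (∀ m : ℕ, m ≤ g 1 m ∧ g 1 m ≤ 6 * m + 3) := by
  refine ⟨isGreatest_g, Un.g_one_theta, g_theta, ?_,
    fun m => ⟨Un.le_g_one m, (Un.g_one_lin m).trans (by omega)⟩⟩
  intro k
  have h1 : (fun m : ℕ => (g k m : ℝ)) =O[atTop] fun m : ℕ => (m : ℝ) ^ 2 / Real.log m := by
    apply IsBigO.of_bound (72 * (k : ℝ) ^ 2)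
    filter_upwards [eventually_ge_atTop 2] with m hm
    rw [Real.norm_of_nonneg (Nat.cast_nonneg _)]
    refine (g_upper k m hm).trans ?_
    exact mul_le_mul_of_nonneg_left (Real.le_norm_self _) (by positivity)
  refine h1.trans_isLittleO ?_
  have h2 : Tendsto (fun m : ℕ => Real.log (m : ℝ)) atTop atTop :=
    Real.tendsto_log_atTop.comp tendsto_natCast_atTop_atTop
  rw [isLittleO_iff_tendsto']
  · have h3 : Tendsto (fun m : ℕ => (Real.log (m : ℝ))⁻¹) atTop (nhds 0) := h2.inv_tendsto_atTop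
    refine h3.congr' ?_
    filter_upwards [eventually_ge_atTop 2] with m hm
    have hm0 : (m : ℝ) ≠ 0 := by
      have : (0 : ℝ) < m := by exact_mod_cast (by omega : 0 < m)
      exact this.ne'
    field_simp
  · filter_upwards [eventually_ge_atTop 2] with m hm h
    have hm0 : (0 : ℝ) < m := by exact_mod_cast (by omega : 0 < m)
    exact absurd h (by positivity)

end Pool.Agent.Results.MP_91c91a_lc.ThetaBound
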